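import Pool.Agent.Lib.MP_f4ebb7_co.V.TwoP

/-!
# Ryser's conjecture holds for almost all group orders

The set of the integers `v` such that some finite abelian group of order `v` (for instance the cyclic group
`ZMod v`) contains a nontrivial difference set has natural density `0`.
-/

set_option autoImplicit false

namespace Pool.Agent.Results.MP_f4ebb7_co.AlmostAllGroupOrders

/-- `D` is a difference set with parameter `l` in the finite abelian group `G` -/
def IsDiffSet (G : Type) [AddCommGroup G] [DecidableEq G] (D : Finset G) (l : ℕ) : Prop :=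
  ∀ g : G, g ≠ 0 → ((D ×ˢ D).filter (fun p => p.1 - p.2 = g)).card = l

/-- some finite abelian group of order `v` contains a difference set of some order `n ≥ 2` -/
def HasDiffSet (v : ℕ) : Prop :=
  ∃ (G : Type) (_ : AddCommGroup G) (_ : Fintype G) (_ : DecidableEq G) (D : Finset G) (l n : ℕ),
    Fintype.card G = v ∧ IsDiffSet G D l ∧ D.card = n + l ∧ 2 ≤ n

/-- The integers `v` with `HasDiffSet v` have natural density zero. -/
theorem result : Filter.Tendsto
    (fun X : ℕ => (({v : ℕ | 1 ≤ v ∧ v ≤ X ∧ HasDiffSet v}.ncard : ℕ) : ℝ) / X) Filter.atTop (nhds 0) := by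
  have h : ∀ v : ℕ, HasDiffSet v ↔ Pool.Agent.Lib.MP_f4ebb7_co.V.BadV v := by
    intro v
    constructor
    · rintro ⟨G, i1, i2, i3, D, l, n, hv, hD, hk, hn⟩
      exact ⟨G, i1, i2, i3, D, l, n, hD, hk, hn, hv⟩
    · rintro ⟨G, i1, i2, i3, D, l, n, hD, hk, hn, hv⟩
      exact ⟨G, i1, i2, i3, D, l, n, hv, hD, hk, hn⟩
  simp only [h]
  exact Pool.Agent.Lib.MP_f4ebb7_co.V.density_zero

end Pool.Agent.Results.MP_f4ebb7_co.AlmostAllGroupOrders
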