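import Pool.Agent.Lib.MP_f4ebb7_co.CHD.Final

/-!
# Circulant Hadamard matrices do not exist for almost all orders

For all `c, k ≥ 1` and `θ < 1/2` the number of `m ≤ x` for which the cyclic group of order `4u²`, `u = c m^k`, contains
a difference set of order `u²` is `O(x / (log x)^θ)`. The number of orders `v ≤ x` of circulant Hadamard matrices is
`O(√x / (log x)^θ)`.
-/

set_option autoImplicit false

namespace Pool.Agent.Results.MP_f4ebb7_co.CirculantHadamardAlmostAll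

/-- `D` is a difference set with parameter `l` in the abelian group `G` -/
def IsDiffSet (G : Type) [AddCommGroup G] [DecidableEq G] (D : Finset G) (l : ℕ) : Prop :=
  ∀ g : G, g ≠ 0 → ((D ×ˢ D).filter (fun p => p.1 - p.2 = g)).card = l

/-- the cyclic group of order `4u²` contains a difference set of order `u²` -/
def CyclicHadamard (u : ℕ) : Prop :=
  ∃ (D : Finset (ZMod (4 * u ^ 2))) (l : ℕ), IsDiffSet (ZMod (4 * u ^ 2)) D l ∧ D.card = u ^ 2 + l

/-- Almost all `u`, and almost all members of every family `u = c m^k`, admit no cyclic difference set of order `u²`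
in `ℤ/4u²`. -/
theorem result :
    ∀ (c k : ℕ) (θ : ℝ), 1 ≤ c → 1 ≤ k → θ < 1 / 2 → ∃ C : ℝ, ∀ x : ℕ, 2 ≤ x →
      (({m : ℕ | 1 ≤ m ∧ m ≤ x ∧ CyclicHadamard (c * m ^ k)}.ncard : ℕ) : ℝ) ≤ C * (x / Real.log x ^ θ) := by
  classical
  intro c k θ hc hk hθ
  obtain ⟨C, _, hC⟩ := Pool.CHD.main c k hc hk θ hθ
  refine ⟨C, fun x hx => ?_⟩
  have h := hC x hx
  have hs : {m : ℕ | 1 ≤ m ∧ m ≤ x ∧ CyclicHadamard (c * m ^ k)} =
      (((Finset.Icc 1 x).filter (fun m => Pool.CHD.HD (c * m ^ k)) : Finset ℕ) : Set ℕ) := by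
    ext m
    rw [Finset.mem_coe, Finset.mem_filter, Finset.mem_Icc, and_assoc]
    rfl
  rw [hs, Set.ncard_coe_finset]
  exact h

/-- there is a circulant Hadamard matrix of order `v` -/
def HasCHM (v : ℕ) : Prop := ∃ a : Fin v → ℤ, (∀ i, a i = 1 ∨ a i = -1) ∧
  Matrix.circulant a * (Matrix.circulant a).transpose = (v : ℤ) • (1 : Matrix (Fin v) (Fin v) ℤ)

/-- Corollary (`c = k = 1`): almost all possible orders `v` admit no circulant Hadamard matrix. -/
theorem orders :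
    ∀ θ : ℝ, θ < 1 / 2 → ∃ C : ℝ, ∀ x : ℕ, 2 ≤ x →
      (({v : ℕ | 1 ≤ v ∧ v ≤ x ∧ HasCHM v}.ncard : ℕ) : ℝ) ≤ C * (Real.sqrt x / Real.log x ^ θ) := by
  classical
  intro θ hθ
  obtain ⟨C, _, hC⟩ := Pool.CHD.chm_count θ hθ
  refine ⟨C, fun x hx => ?_⟩
  have h := hC x hx
  have hs : {v : ℕ | 1 ≤ v ∧ v ≤ x ∧ HasCHM v} =
      (((Finset.Icc 1 x).filter (fun v => Pool.CHD.CHM v) : Finset ℕ) : Set ℕ) := by
    ext m
    rw [Finset.mem_coe, Finset.mem_filter, Finset.mem_Icc, and_assoc]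
    rfl
  rw [hs, Set.ncard_coe_finset]
  exact h

end Pool.Agent.Results.MP_f4ebb7_co.CirculantHadamardAlmostAll
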