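import Pool.Agent.Lib.MP_f4ebb7_co.RY.GFin

/-!
# Difference sets of order `n = p^c m` with `p` large against `m`

Let `p` be a prime, `c ≥ 1`, `m ≥ 2`, `p ∤ m`, and let a finite abelian group `G` contain a difference set of order
`n = p^c m`. Assume (a) `m` is not a square and `p > m² + m + 1` (or only `s (p - s) > m (p - 1)` for all `0 < s < p` with
`s² ≡ m mod p`), or (b) the Sylow `p`-subgroup of `G` is cyclic and `p > 4^(m²)`, or `p > 16m⁴` and `2l < p^c`, or `p > 32m²`,
`m` odd, `c ≥ 3`.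

If `p` divides `|G|`, then `c` is even, `c ≥ 4`, `m` is an even square, `p²` does not divide `|G|` and `p - 1` divides `|G|`.
If `m` is not a square and each odd prime `q` with `q² ∣ m` has a prime `r ≠ q` with odd exponent in `n` and even order
modulo `q` (for example, if the odd part of `m` is squarefree), then `gcd(|G|, n) = 1`.
-/

set_option autoImplicit false

namespace Pool.Agent.Results.MP_f4ebb7_co.LargePrimeCyclic

/-- `D` is a difference set with parameter `l` in the abelian group `G` -/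
def IsDiffSet (G : Type) [AddCommGroup G] [DecidableEq G] (D : Finset G) (l : ℕ) : Prop :=
  ∀ g : G, g ≠ 0 → ((D ×ˢ D).filter (fun p => p.1 - p.2 = g)).card = l

/-- the condition on `p`, `m` and the group `G`; `AddCommGroup.primaryComponent G p` is the Sylow `p`-subgroup of `G` -/
def Large (p c m l : ℕ) (G : Type) [AddCommGroup G] : Prop :=
  (m ^ 2 + m + 1 < p ∧ ¬ IsSquare m) ∨
    (∀ s : ℕ, 0 < s → s < p → s ^ 2 ≡ m [MOD p] → m * (p - 1) < s * (p - s)) ∨
    (IsAddCyclic (AddCommGroup.primaryComponent G p) ∧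
      (4 ^ (m ^ 2) < p ∨ (16 * m ^ 4 < p ∧ 2 * l < p ^ c) ∨ (32 * m ^ 2 < p ∧ Odd m ∧ 3 ≤ c)))

theorem result (p c m l : ℕ) (hp : p.Prime) (hc : 1 ≤ c) (hm : 2 ≤ m) (hpm : ¬ p ∣ m)
    (G : Type) [AddCommGroup G] [Fintype G] [DecidableEq G] (hL : Large p c m l G)
    (D : Finset G) (hD : IsDiffSet G D l) (hk : D.card = p ^ c * m + l) :
    (p ∣ Fintype.card G →
      4 ≤ c ∧ Even c ∧ IsSquare m ∧ Even m ∧ ¬ p ^ 2 ∣ Fintype.card G ∧ (p - 1) ∣ Fintype.card G) ∧
    (¬ IsSquare m → (∀ q : ℕ, q.Prime → q ^ 2 ∣ m → q = 2 ∨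
        ∃ r : ℕ, r.Prime ∧ r ≠ q ∧ Odd ((p ^ c * m).factorization r) ∧ Even (orderOf (r : ZMod q))) →
      Nat.gcd (Fintype.card G) (p ^ c * m) = 1) :=
  Pool.RY.main_gG hp hc hm hpm hL D hD hk

end Pool.Agent.Results.MP_f4ebb7_co.LargePrimeCyclic
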