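import Pool.Agent.Lib.MP_f4ebb7_co.RY.GFin

/-!
# Difference sets of order `n = p^c m` in groups with cyclic Sylow `p`-subgroup of order at least `p²`

Let `p` be a prime that does not divide `m ≥ 1`, `c ≥ 1`, and let `D` be a difference set of order `n = p^c m` in a finite
abelian group `G` whose Sylow `p`-subgroup is cyclic of order at least `p²` (for example `G = ℤ/v` with `p² ∣ v`). Then
`p ≤ 3m²`. There is no condition on the size of `G`.
-/

set_option autoImplicit false

namespace Pool.Agent.Results.MP_f4ebb7_co.LargePrimeSquare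

/-- `D` is a difference set with parameter `l` in the abelian group `G` -/
def IsDiffSet (G : Type) [AddCommGroup G] [DecidableEq G] (D : Finset G) (l : ℕ) : Prop :=
  ∀ g : G, g ≠ 0 → ((D ×ˢ D).filter (fun p => p.1 - p.2 = g)).card = l

theorem result (p c m l : ℕ) (hp : p.Prime) (hc : 1 ≤ c) (hm : 1 ≤ m) (hpm : ¬ p ∣ m)
    (G : Type) [AddCommGroup G] [Fintype G] [DecidableEq G] (hcyc : IsAddCyclic (AddCommGroup.primaryComponent G p))
    (hpG : p ^ 2 ∣ Fintype.card G) (D : Finset G) (hD : IsDiffSet G D l) (hk : D.card = p ^ c * m + l) :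
    p ≤ 3 * m ^ 2 :=
  Pool.RY.main_t1G hp hm hpm hc hcyc hpG D hD hk

end Pool.Agent.Results.MP_f4ebb7_co.LargePrimeSquare
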